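import Pool.Agent.helper49.DC.Box

set_option autoImplicit false

namespace Pool.Agent.helper49.DC

open Representation TensorProduct Module Pool.Agent.helper58.DC

theorem irc2_key {H K V W U : Type} [Group H] [Group K] [Finite H] [Finite K] [AddCommGroup V]
    [Module ℂ V] [AddCommGroup W] [Module ℂ W] [AddCommGroup U] [Module ℂ U]
    [FiniteDimensional ℂ V] [FiniteDimensional ℂ W] [FiniteDimensional ℂ U]
    (ρ : Representation ℂ (H × K) V) (σ : Representation ℂ H W) (τ : Representation ℂ K U)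
    (hρ : ρ.IsIrreducible) (hσ : σ.IsIrreducible) (hτ : τ.IsIrreducible)
    (j : U →ₗ[ℂ] W →ₗ[ℂ] V) (h1 : ∀ k f w, j (τ k f) w = ρ (1, k) (j f w))
    (h2 : ∀ h f w, j f (σ h w) = ρ (h, 1) (j f w)) (h3 : ∃ f w, j f w ≠ 0) :
    ρ.character = fun x => σ.character x.1 * τ.character x.2 := by
  let e : W ⊗[ℂ] U →ₗ[ℂ] V := TensorProduct.lift j.flip
  have he : ∀ w f, e (w ⊗ₜ f) = j f w := fun w f => by
    change TensorProduct.lift j.flip (w ⊗ₜ f) = j f w
    rw [TensorProduct.lift.tmul]
    rfl
  have hee : ∀ (x : H × K) (v : W ⊗[ℂ] U), e (box σ τ x v) = ρ x (e v) := by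
    intro x v
    induction v using TensorProduct.induction_on with
    | zero => rw [map_zero, map_zero, map_zero]
    | add a b ha hb => rw [map_add, map_add, map_add, ha, hb, map_add]
    | tmul w f =>
      rw [box_tmul, he, he, h1, h2]
      change (ρ (1, x.2) * ρ (x.1, 1)) (j f w) = _
      rw [← map_mul]
      congr 2
      ext <;> simp
  have hbox := irr_box σ τ hσ hτ
  let E : IntertwiningMap (box σ τ) ρ := e.intertwiningMap_of_isIntertwiningMap _ _ hee
  have hE : E ≠ 0 := by
    intro h0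
    obtain ⟨f, w, hfw⟩ := h3
    apply hfw
    have h4 := congrArg (fun g : IntertwiningMap (box σ τ) ρ => g (w ⊗ₜ f)) h0
    have h5 : e (w ⊗ₜ f) = 0 := h4
    rw [he] at h5
    exact h5
  have hbij := (IsIrreducible.bijective_or_eq_zero E).resolve_right hE
  have hch := char_iso (IntertwiningMap.ofBijective E hbij)
  rw [← hch]
  funext x
  exact char_box _ _ x

theorem mem_irr {H V : Type} [Group H] [AddCommGroup V] [Module ℂ V] [FiniteDimensional ℂ V]
    (ρ : Representation ℂ H V) (hρ : ρ.IsIrreducible) : ρ.character ∈ Irr H :=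
  ⟨V, inferInstance, inferInstance, inferInstance, ρ, hρ, rfl⟩

theorem nontrivial_of_irr {H V : Type} [Group H] [AddCommGroup V] [Module ℂ V]
    (ρ : Representation ℂ H V) (hρ : ρ.IsIrreducible) : Nontrivial V := by
  by_contra hV
  rw [not_nontrivial_iff_subsingleton] at hV
  obtain ⟨a, b, hab⟩ := hρ.exists_pair_ne
  apply hab
  apply Subrepresentation.toSubmodule_injective
  exact Subsingleton.elim _ _

/-- the action of `K` on linear maps -/
noncomputable def tauK {H K V W : Type} [Group H] [Group K] [AddCommGroup V]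
    [Module ℂ V] [AddCommGroup W] [Module ℂ W] (ρ : Representation ℂ (H × K) V) :
    Representation ℂ K (W →ₗ[ℂ] V) where
  toFun k := LinearMap.llcomp ℂ W V V (ρ (1, k))
  map_one' := by
    ext f w
    change ρ (1, 1) (f w) = f w
    rw [show ((1 : H), (1 : K)) = 1 from rfl, map_one]
    rfl
  map_mul' := by
    intro a b
    ext f w
    change ρ (1, a * b) (f w) = ρ (1, a) (ρ (1, b) (f w))
    rw [show ((1 : H), a * b) = (1, a) * (1, b) from by ext <;> simp, map_mul]
    rfl

theorem tauK_apply {H K V W : Type} [Group H] [Group K] [AddCommGroup V]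
    [Module ℂ V] [AddCommGroup W] [Module ℂ W] (ρ : Representation ℂ (H × K) V) (k : K)
    (f : W →ₗ[ℂ] V) (w : W) : tauK ρ k f w = ρ (1, k) (f w) := rfl

/-- the equivariant maps -/
noncomputable def subU {H K V W : Type} [Group H] [Group K] [AddCommGroup V]
    [Module ℂ V] [AddCommGroup W] [Module ℂ W] (ρ : Representation ℂ (H × K) V)
    (σ : Representation ℂ H W) : Subrepresentation (tauK (W := W) ρ) where
  toSubmodule :=
    { carrier := {f | ∀ (h : H) (w : W), f (σ h w) = ρ (h, 1) (f w)}
      add_mem' := by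
        intro f g hf hg h w
        rw [LinearMap.add_apply, LinearMap.add_apply, hf h w, hg h w, map_add]
      zero_mem' := by
        intro h w
        rw [LinearMap.zero_apply, LinearMap.zero_apply, map_zero]
      smul_mem' := by
        intro c f hf h w
        rw [LinearMap.smul_apply, LinearMap.smul_apply, hf h w, map_smul] }
  apply_mem_toSubmodule := by
    intro k f hf h w
    have h1 : (1, k) * (h, 1) = ((h, 1) * (1, k) : H × K) := by ext <;> simp
    rw [tauK_apply, tauK_apply, hf h w]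
    change (ρ (1, k) * ρ (h, 1)) (f w) = (ρ (h, 1) * ρ (1, k)) (f w)
    rw [← map_mul, ← map_mul, h1]

theorem irc2_main {H K V W : Type} [Group H] [Group K] [Finite H] [Finite K] [AddCommGroup V]
    [Module ℂ V] [AddCommGroup W] [Module ℂ W] [FiniteDimensional ℂ V] [FiniteDimensional ℂ W]
    (ρ : Representation ℂ (H × K) V) (σ : Representation ℂ H W)
    (hρ : ρ.IsIrreducible) (hσ : σ.IsIrreducible)
    (f₀ : W →ₗ[ℂ] V) (hf₀ : ∀ h w, f₀ (σ h w) = ρ (h, 1) (f₀ w)) (hne : f₀ ≠ 0) :
    ∃ β ∈ Irr K, ρ.character = fun x => σ.character x.1 * β x.2 := by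
  have hUnt : Nontrivial (subU ρ σ).toSubmodule := by
    refine ⟨⟨⟨f₀, hf₀⟩, 0, ?_⟩⟩
    intro h0
    exact hne (congrArg Subtype.val h0)
  obtain ⟨T, hT⟩ := exists_irr (subU ρ σ).toRepresentation
  have hTnt := nontrivial_of_irr _ hT
  refine ⟨_, mem_irr (V := T.toSubmodule) T.toRepresentation hT, ?_⟩
  refine irc2_key (U := T.toSubmodule) ρ σ T.toRepresentation hρ hσ hT
    ((subU ρ σ).toSubmodule.subtype ∘ₗ T.toSubmodule.subtype) (fun _ _ _ => rfl)
    (fun h f w => f.1.2 h w) ?_
  obtain ⟨f, hf⟩ := exists_ne (0 : T.toSubmodule)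
  refine ⟨f, ?_⟩
  by_contra hcon
  push Not at hcon
  apply hf
  apply Subtype.ext
  apply Subtype.ext
  apply LinearMap.ext
  intro w
  exact hcon w

/-- Every irreducible character of a product is a product. -/
theorem IRC2 : IRC2_stmt := by
  classical
  intro H K _ _ _ _ θ hθ
  obtain ⟨V, _, _, _, ρ, hρ, rfl⟩ := hθ
  have hV : Nontrivial V := nontrivial_of_irr ρ hρ
  obtain ⟨S, hS⟩ := exists_irr (ρ.comp (MonoidHom.inl H K) : Representation ℂ H V)
  have hSnt := nontrivial_of_irr _ hS
  obtain ⟨β, hβ, hβ'⟩ := irc2_main (W := S.toSubmodule) ρ S.toRepresentation hρ hS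
    S.toSubmodule.subtype (fun h w => rfl) (by
      intro h0
      obtain ⟨w, hw⟩ := exists_ne (0 : S.toSubmodule)
      apply hw
      apply Subtype.ext
      exact congrArg (fun f : S.toSubmodule →ₗ[ℂ] V => f w) h0)
  exact ⟨_, mem_irr (V := S.toSubmodule) S.toRepresentation hS,
    β, hβ, hβ'⟩

end Pool.Agent.helper49.DC
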