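import Pool.Agent.helper49.DC.Box

set_option autoImplicit false

namespace Pool.Agent.helper49.DC

open Representation TensorProduct Module Pool.Agent.helper58.DC

/-- The product of two irreducible characters is irreducible. -/
theorem IRP2 : IRP2_stmt := by
  intro H K _ _ _ _ α hα β hβ
  obtain ⟨V, _, _, _, ρ, hρ, rfl⟩ := hα
  obtain ⟨W, _, _, _, σ, hσ, rfl⟩ := hβ
  exact ⟨V ⊗[ℂ] W, inferInstance, inferInstance, inferInstance, box ρ σ, irr_box ρ σ hρ hσ,
    funext fun x => char_box ρ σ x⟩

end Pool.Agent.helper49.DC
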