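import Mathlib
import Pool.Agent.helper58.DC.Spec1

/-! External tensor products of representations of finite groups. -/

set_option autoImplicit false

namespace Pool.Agent.helper49.DC

open Representation TensorProduct Module

/-- A representation of a finite group over `ℂ` whose character has norm one is irreducible. -/
theorem irr_of_norm {H V : Type} [Group H] [Finite H] [AddCommGroup V] [Module ℂ V]
    [FiniteDimensional ℂ V] (ρ : Representation ℂ H V)
    (h : ∑ᶠ g : H, ρ.character g * ρ.character g⁻¹ = Nat.card H) : ρ.IsIrreducible := by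
  classical
  have := Fintype.ofFinite H
  have hc : (Nat.card H : ℂ) ≠ 0 := Nat.cast_ne_zero.2 Nat.card_pos.ne'
  have hi : Invertible (Nat.card H : ℂ) := invertibleOfNonzero hc
  rw [finsum_eq_sum_of_fintype] at h
  have h1 := card_inv_mul_sum_char_mul_char_eq_finrank ρ ρ
  rw [h, inv_mul_cancel₀ hc] at h1
  have h2 : finrank ℂ (IntertwiningMap ρ ρ) = 1 := by exact_mod_cast h1.symm
  have hV : Nontrivial V := by
    by_contra hV
    rw [not_nontrivial_iff_subsingleton] at hV
    have : Subsingleton (IntertwiningMap ρ ρ) :=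
      ⟨fun f g => IntertwiningMap.ext (LinearMap.ext fun v => Subsingleton.elim _ _)⟩
    rw [finrank_zero_of_subsingleton] at h2
    exact absurd h2 (by norm_num)
  have hid : IntertwiningMap.id ρ ≠ 0 := by
    intro h0
    obtain ⟨v, hv⟩ := exists_ne (0 : V)
    apply hv
    have := congrArg (fun f : IntertwiningMap ρ ρ => f v) h0
    simpa using this
  refine { exists_pair_ne := ⟨⊥, ⊤, ?_⟩, eq_bot_or_eq_top := ?_ }
  · intro h0
    have h3 := congrArg Subrepresentation.toSubmodule h0
    exact bot_ne_top (α := Submodule ℂ V) h3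
  · intro W
    by_cases hW : W = ⊥
    · left; exact hW
    right
    obtain ⟨W', hW'⟩ := exists_isCompl W
    have hc1 : IsCompl W.toSubmodule W'.toSubmodule := by
      constructor
      · rw [disjoint_iff]
        have := congrArg Subrepresentation.toSubmodule (disjoint_iff.1 hW'.1)
        exact this
      · rw [codisjoint_iff]
        have := congrArg Subrepresentation.toSubmodule (codisjoint_iff.1 hW'.2)
        exact this
    have hW0 : W.toSubmodule ≠ ⊥ := fun h0 => hW (Subrepresentation.toSubmodule_injective h0)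
    obtain ⟨w, hw, hw0⟩ := Submodule.exists_mem_ne_zero_of_ne_bot hW0
    let p : V →ₗ[ℂ] V := W.toSubmodule.subtype ∘ₗ
      Submodule.projectionOnto W.toSubmodule W'.toSubmodule hc1
    have hp1 : ∀ v ∈ W.toSubmodule, p v = v := by
      intro v hv
      have h5 := Submodule.projectionOnto_apply_left hc1 ⟨v, hv⟩
      exact congrArg Subtype.val h5
    have hp2 : ∀ v ∈ W'.toSubmodule, p v = 0 := by
      intro v hv
      have h5 := Submodule.projectionOnto_apply_right hc1 ⟨v, hv⟩
      exact congrArg Subtype.val h5
    have hpe : ∀ (g : H) (v : V), p (ρ g v) = ρ g (p v) := by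
      intro g v
      have hv : v ∈ W.toSubmodule ⊔ W'.toSubmodule := by
        rw [codisjoint_iff.1 hc1.2]; trivial
      obtain ⟨a, ha, b, hb, rfl⟩ := Submodule.mem_sup.1 hv
      rw [map_add, map_add, map_add, hp1 _ (W.apply_mem_toSubmodule g ha),
        hp2 _ (W'.apply_mem_toSubmodule g hb), hp1 _ ha, hp2 _ hb, add_zero, add_zero]
    let P : IntertwiningMap ρ ρ := p.intertwiningMap_of_isIntertwiningMap ρ ρ hpe
    obtain ⟨c, hcP⟩ := (finrank_eq_one_iff_of_nonzero' _ hid).1 h2 P
    have hcv : ∀ v, c • v = p v := by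
      intro v
      have := congrArg (fun f : IntertwiningMap ρ ρ => f v) hcP
      simpa [P] using this
    have hc1' : c = 1 := by
      have h3 := hcv w
      rw [hp1 w hw] at h3
      by_contra hne
      have h4 : (c - 1) • w = 0 := by rw [sub_smul, h3, one_smul, sub_self]
      rcases smul_eq_zero.1 h4 with h5 | h5
      · exact hne (sub_eq_zero.1 h5)
      · exact hw0 h5
    apply Subrepresentation.toSubmodule_injective
    change W.toSubmodule = (⊤ : Submodule ℂ V)
    rw [eq_top_iff]
    intro v _
    have h3 := hcv v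
    rw [hc1', one_smul] at h3
    rw [h3]
    exact (Submodule.projectionOnto W.toSubmodule W'.toSubmodule hc1 v).2

/-- The norm of an irreducible character is one. -/
theorem norm_of_irr {H V : Type} [Group H] [Finite H] [AddCommGroup V] [Module ℂ V]
    [FiniteDimensional ℂ V] (ρ : Representation ℂ H V) (h : ρ.IsIrreducible) :
    ∑ᶠ g : H, ρ.character g * ρ.character g⁻¹ = Nat.card H := by
  classical
  have := Fintype.ofFinite H
  have hc : (Nat.card H : ℂ) ≠ 0 := Nat.cast_ne_zero.2 Nat.card_pos.ne'
  have hi : Invertible (Nat.card H : ℂ) := invertibleOfNonzero hc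
  have h1 := char_orthonormal ρ ρ
  rw [if_pos ⟨Representation.Equiv.refl ρ⟩, inv_mul_eq_one₀ hc] at h1
  rw [finsum_eq_sum_of_fintype]
  exact h1.symm

/-- The external tensor product. -/
noncomputable def box {H K V W : Type} [Group H] [Group K] [AddCommGroup V] [Module ℂ V]
    [AddCommGroup W] [Module ℂ W] (ρ : Representation ℂ H V) (σ : Representation ℂ K W) :
    Representation ℂ (H × K) (V ⊗[ℂ] W) :=
  Representation.tprod (ρ.comp (MonoidHom.fst H K)) (σ.comp (MonoidHom.snd H K))

theorem box_tmul {H K V W : Type} [Group H] [Group K] [AddCommGroup V] [Module ℂ V]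
    [AddCommGroup W] [Module ℂ W] (ρ : Representation ℂ H V) (σ : Representation ℂ K W)
    (x : H × K) (v : V) (w : W) : box ρ σ x (v ⊗ₜ w) = ρ x.1 v ⊗ₜ σ x.2 w := rfl

theorem char_box {H K V W : Type} [Group H] [Group K] [AddCommGroup V] [Module ℂ V]
    [AddCommGroup W] [Module ℂ W] [FiniteDimensional ℂ V] [FiniteDimensional ℂ W]
    (ρ : Representation ℂ H V) (σ : Representation ℂ K W) (x : H × K) :
    (box ρ σ).character x = ρ.character x.1 * σ.character x.2 := by
  unfold box
  rw [char_tensor]
  rfl

theorem irr_box {H K V W : Type} [Group H] [Group K] [Finite H] [Finite K] [AddCommGroup V]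
    [Module ℂ V] [AddCommGroup W] [Module ℂ W] [FiniteDimensional ℂ V] [FiniteDimensional ℂ W]
    (ρ : Representation ℂ H V) (σ : Representation ℂ K W) (hρ : ρ.IsIrreducible)
    (hσ : σ.IsIrreducible) : (box ρ σ).IsIrreducible := by
  classical
  have := Fintype.ofFinite H
  have := Fintype.ofFinite K
  apply irr_of_norm
  have h1 := norm_of_irr ρ hρ
  have h2 := norm_of_irr σ hσ
  rw [finsum_eq_sum_of_fintype] at h1 h2 ⊢
  simp only [char_box]
  rw [Nat.card_prod, Nat.cast_mul, ← h1, ← h2, Finset.sum_mul_sum, ← Finset.univ_product_univ,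
    Finset.sum_product]
  refine Finset.sum_congr rfl fun a _ => Finset.sum_congr rfl fun b _ => ?_
  simp only [Prod.fst_inv, Prod.snd_inv]
  ring

/-- A nonzero finite dimensional representation contains an irreducible one. -/
theorem exists_irr {K U : Type} [Group K] [AddCommGroup U] [Module ℂ U] [FiniteDimensional ℂ U]
    [Nontrivial U] (ρ : Representation ℂ K U) :
    ∃ S : Subrepresentation ρ, S.toRepresentation.IsIrreducible := by
  classical
  have hex : ∃ n, ∃ S : Subrepresentation ρ, S.toSubmodule ≠ ⊥ ∧ finrank ℂ S.toSubmodule = n :=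
    ⟨_, ⊤, by exact top_ne_bot (α := Submodule ℂ U), rfl⟩
  obtain ⟨S, hS, hn⟩ := Nat.find_spec hex
  refine ⟨S, ?_⟩
  have hnt : Nontrivial S.toSubmodule := (Submodule.nontrivial_iff_ne_bot).2 hS
  refine { exists_pair_ne := ⟨⊥, ⊤, ?_⟩, eq_bot_or_eq_top := ?_ }
  · intro h0
    exact bot_ne_top (α := Submodule ℂ S.toSubmodule) (congrArg Subrepresentation.toSubmodule h0)
  · intro T
    by_cases hT : T = ⊥
    · left; exact hT
    right
    have hT0 : T.toSubmodule ≠ ⊥ := fun h0 => hT (Subrepresentation.toSubmodule_injective h0)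
    let T' : Subrepresentation ρ :=
      { toSubmodule := T.toSubmodule.map S.toSubmodule.subtype
        apply_mem_toSubmodule := by
          rintro g v ⟨t, ht, rfl⟩
          exact ⟨S.toRepresentation g t, T.apply_mem_toSubmodule g ht, rfl⟩ }
    have hT' : T'.toSubmodule ≠ ⊥ := by
      intro h0
      apply hT0
      rw [eq_bot_iff] at h0 ⊢
      intro t ht
      have h5 : (t : U) ∈ (⊥ : Submodule ℂ U) := h0 ⟨t, ht, rfl⟩
      rw [Submodule.mem_bot] at h5 ⊢
      exact Subtype.ext h5
    have h1 : Nat.find hex ≤ finrank ℂ T'.toSubmodule := Nat.find_min' hex ⟨T', hT', rfl⟩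
    have h2 : finrank ℂ T'.toSubmodule = finrank ℂ T.toSubmodule :=
      LinearEquiv.finrank_eq (Submodule.equivMapOfInjective _ S.toSubmodule.injective_subtype
        T.toSubmodule).symm
    apply Subrepresentation.toSubmodule_injective
    apply Submodule.eq_top_of_finrank_eq
    apply le_antisymm (Submodule.finrank_le _)
    rw [hn, ← h2]
    exact h1

end Pool.Agent.helper49.DC
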